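import Pool.Agent.Helper32.FR.Defs
import Pool.Agent.Helper10.FR.MStep
import Pool.Agent.Helper68.FR.Supp
import Pool.Agent.Helper6.BA.Succ
import Pool.Agent.Helper64.BA.Encode
import Pool.Agent.Helper29.BA.CndCCC
import Pool.Agent.Helper54.BA.CEcalc

/-!
# Project FR: the iteration satisfies `PP`
-/

set_option autoImplicit false
set_option linter.unusedSectionVars false

namespace Pool.Agent.Helper32.FR

open Pool.Agent.Helper33.HM Pool.Agent.Helper94.BA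

universe u

section C5

theorem h28_usup_append {B : Type u} [CompleteBooleanAlgebra B] (l l' : List (ℕ → B)) :
    usup (l ++ l') = usup l ⊔ usup l' := by
  induction l with
  | nil => exact (bot_sup_eq _).symm
  | cons a l ih =>
    show a ⊔ usup (l ++ l') = (a ⊔ usup l) ⊔ usup l'
    rw [ih, sup_assoc]

theorem h28_finN_sup {B : Type u} [CompleteBooleanAlgebra B] (m m' : ℕ) :
    (finN m ⊔ finN m' : ℕ → B) = finN (max m m') := by
  funext n
  simp only [Pi.sup_apply, finN]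
  by_cases h : n < m <;> by_cases h' : n < m' <;> simp [h, h']

variable {P₀ : Type 1} [Preorder P₀]

theorem h28_JS_sup {G : II → Set (Name P₀ II)} {i : II} {S : Set (Name P₀ II)} :
    ∀ x ∈ JS G i S, ∀ y ∈ JS G i S, x ⊔ y ∈ JS G i S := by
  rintro _ ⟨l, m, hl, rfl⟩ _ ⟨l', m', hl', rfl⟩
  refine ⟨l ++ l', max m m', ?_, ?_⟩
  · intro Y hY
    rcases List.mem_append.1 hY with h | h
    · exact hl Y h
    · exact hl' Y h
  · rw [List.map_append, h28_usup_append, ← h28_finN_sup, sup_sup_sup_comm]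

theorem h28_JS_fin {G : II → Set (Name P₀ II)} {i : II} {S : Set (Name P₀ II)} (m : ℕ) :
    finN m ∈ JS G i S := by
  refine ⟨[], m, by simp, ?_⟩
  show finN m = ⊥ ⊔ finN m
  rw [bot_sup_eq]

theorem h28_JS_val {G : II → Set (Name P₀ II)} {i : II} {S : Set (Name P₀ II)} {Y : Name P₀ II}
    (hY : Y ∈ S) : (valN Y : ℕ → RO (Cnd G i)) ∈ JS G i S := by
  refine ⟨[Y], 0, by simpa using hY, ?_⟩
  funext n
  show valN Y n = (valN Y n ⊔ ⊥) ⊔ (if n < 0 then ⊤ else ⊥)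
  simp

theorem h28_map_usup {A B : Type u} [CompleteBooleanAlgebra A] [CompleteBooleanAlgebra B]
    {e : A → B} (he : CE e) {N : Type*} (val : N → ℕ → A) (n : ℕ) (b : B) (l : List N)
    (h : ∀ Y ∈ l, e (val Y n) ≤ b) : e (usup (l.map val) n) ≤ b := by
  induction l with
  | nil =>
    show e ⊥ ≤ b
    rw [he.map_bot]
    exact bot_le
  | cons Y l ih =>
    show e (val Y n ⊔ usup (l.map val) n) ≤ b
    rw [he.map_sup]
    exact sup_le (h Y (List.mem_cons_self ..)) (ih fun Z hZ => h Z (List.mem_cons_of_mem _ hZ))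

theorem h28_finset {ι N : Type*} (Y : ι → N) (l : List N) (h : ∀ Z ∈ l, ∃ j, Y j = Z) :
    ∃ s : Finset ι, ∀ Z ∈ l, ∃ j ∈ s, Y j = Z := by
  classical
  induction l with
  | nil => exact ⟨∅, fun Z hZ => absurd hZ (List.not_mem_nil)⟩
  | cons Z l ih =>
    obtain ⟨s, hs⟩ := ih fun W hW => h W (List.mem_cons_of_mem _ hW)
    obtain ⟨j, hj⟩ := h Z (List.mem_cons_self ..)
    refine ⟨insert j s, fun W hW => ?_⟩
    rcases List.mem_cons.1 hW with rfl | hW
    · exact ⟨j, Finset.mem_insert_self _ _, hj⟩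
    · obtain ⟨k, hk, hk'⟩ := hs W hW
      exact ⟨k, Finset.mem_insert_of_mem hk, hk'⟩

/-- The ideal is proper if the union of finitely many of the given sets is coinfinite. -/
theorem h28_prp {F G : II → Set (Name P₀ II)} {i : II} {ι : Type} {y : ι → ℕ → RO (Cnd F (⊤ : II))}
    (hy : ∀ (s : Finset ι) (m : ℕ), ⨆ n : ℕ, ⨆ _ : m ≤ n, ⨅ j : ι, ⨅ _ : j ∈ s, (y j n)ᶜ = ⊤)
    {e : RO (Cnd G i) → RO (Cnd F (⊤ : II))} (he : CE e) (Y : ι → Name P₀ II)
    (hval : ∀ j n, e (valN (Y j) n) = y j n) {S : Set (Name P₀ II)} (hS : S ⊆ Set.range Y) :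
    Prp (JS G i S) := by
  rintro _ ⟨l, m0, hl, rfl⟩ m
  obtain ⟨s, hs⟩ := h28_finset Y l fun Z hZ => hS (hl Z hZ)
  rw [← he.injective.eq_iff, he.map_top, he.map_iSup, ← top_le_iff, ← hy s (max m m0)]
  refine iSup_le fun n => iSup_le fun hn => ?_
  refine le_iSup_of_le n ?_
  rw [he.map_iSup]
  refine le_iSup_of_le (le_trans (le_max_left _ _) hn) ?_
  rw [he.map_compl]
  have h1 : ⨅ j : ι, ⨅ _ : j ∈ s, (y j n)ᶜ = (⨆ j : ι, ⨆ _ : j ∈ s, y j n)ᶜ := by
    rw [compl_iSup]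
    exact iInf_congr fun j => by rw [compl_iSup]
  rw [h1]
  apply compl_le_compl
  have h2 : (usup (l.map valN) ⊔ finN m0 : ℕ → RO (Cnd G i)) n = usup (l.map valN) n := by
    have h3 : (finN m0 : ℕ → RO (Cnd G i)) n = ⊥ :=
      if_neg (not_lt.2 (le_trans (le_max_right _ _) hn))
    rw [Pi.sup_apply, h3, sup_bot_eq]
  rw [h2]
  refine h28_map_usup he valN n _ l fun Z hZ => ?_
  obtain ⟨j, hj, rfl⟩ := hs Z hZ
  rw [hval]
  exact le_iSup_of_le j (le_iSup_of_le hj le_rfl)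

/-- FR-C5: the iteration satisfies `PP`. -/
theorem pp_iter (h₀ : AC P₀) (hne : Nonempty P₀) (tk : II → Set (Name P₀ II)) (htk : Lists tk)
    (F : II → Set (Name P₀ II)) (hF : ∀ i, F i = StepF tk (restr F i) i) :
    PP (RO (Cnd F (⊤ : II))) := by
  classical
  intro ι y hy
  obtain ⟨α, Y, hY⟩ := exists_names h₀ hne y
  obtain ⟨α', hα, hα'⟩ := htk F ι Y
    (fun j n k => ⟨((hY j).1 n k).1, Raw.lt_mono le_top ((hY j).1 n k).2⟩) α
  obtain ⟨i, hi⟩ : ∃ i : II, i = (α' : II) := ⟨_, rfl⟩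
  obtain ⟨ℓ, hℓ⟩ : ∃ ℓ : II, ℓ = ((Order.succ α' : Ordinal.{0}) : II) := ⟨_, rfl⟩
  have hαi : (α : II) ≤ i := hi ▸ WithTop.coe_le_coe.2 hα
  have hiℓ : i < ℓ := by
    rw [hi, hℓ]
    exact WithTop.coe_lt_coe.2 (Order.lt_succ α')
  have hcov : ∀ j < ℓ, j ≤ i := by
    intro j hj
    rw [hℓ] at hj
    induction j using WithTop.recTopCoe with
    | top => exact absurd hj (not_lt.2 le_top)
    | coe β =>
      rw [hi]
      exact WithTop.coe_le_coe.2 (Order.lt_succ_iff.1 (WithTop.coe_lt_coe.1 hj))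
  rw [← hi] at hα'
  obtain ⟨G, hG⟩ : ∃ G : II → Set (Name P₀ II), G = restr F i := ⟨_, rfl⟩
  have hag : Agr G F i := hG ▸ agr_restr F i
  have hYG : ∀ j, Y j ∈ VN G i := by
    intro j n k
    have h1 : ((Y j).1 n k).lt i := Raw.lt_mono hαi ((hY j).1 n k).2
    exact ⟨((hY j).1 n k).1.congr h1 fun j hj => (hag j hj).symm.subset, h1⟩
  have htop : i ≤ (⊤ : II) := le_top
  have he : CE (embR hag : RO (Cnd G i) → RO (Cnd F (⊤ : II))) := embR_ce hag htop
  have hval : ∀ j n, (embR hag (valN (Y j) n) : RO (Cnd F (⊤ : II))) = y j n := by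
    intro j n
    rw [← (hY j).2]
    exact valN_congr hag (hYG j) htop n
  obtain ⟨J, hJ⟩ : ∃ J : Set (ℕ → RO (Cnd G i)), J = JS G i (tk i ∩ VN G i) := ⟨_, rfl⟩
  have hJp : Prp J := by
    rw [hJ]
    exact h28_prp hy he Y hval (fun Z hZ => hα' ▸ hZ.1)
  have hFi : F i = {Z | Z ∈ VN G i ∧ valN Z ∈ J} := by
    have h1 := hF i
    rw [← hG] at h1
    rw [h1, StepF, JJ, if_pos (hJ ▸ hJp), hJ]
  have hJs : ∀ x ∈ J, ∀ y ∈ J, x ⊔ y ∈ J := by
    rw [hJ]
    exact h28_JS_sup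
  have hJf : ∀ m, finN m ∈ J := by
    rw [hJ]
    exact h28_JS_fin
  have hid : idealOf G i (F i) = J := by
    ext x
    constructor
    · rintro ⟨Z, hZ, rfl⟩
      rw [hFi] at hZ
      exact hZ.2
    · intro hx
      obtain ⟨Z, hZ, hZx⟩ := exists_name (cnd_ac h₀) (hne.map fun a => ⟨Raw.nil a, trivial, trivial⟩)
        x
      refine ⟨Z, ?_, hZx⟩
      rw [hFi]
      exact ⟨hZ, hZx.symm ▸ hx⟩
  have hms : MStep (embR hag : RO (Cnd G i) → RO (Cnd F ℓ)) J (zG i) := by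
    rw [← hid]
    refine mstep hag hiℓ hcov ?_ ?_ ?_
    · intro Z hZ n k
      rw [hFi] at hZ
      exact ⟨(hZ.1 n k).1.congr (hZ.1 n k).2 fun j hj => (hag j hj).subset, (hZ.1 n k).2⟩
    · rw [hid]
      exact hJs
    · rw [hid]
      exact ⟨_, hJf 0⟩
  have he1 : CE (embR hag : RO (Cnd G i) → RO (Cnd F ℓ)) := embR_ce hag hiℓ.le
  have hrfl : Agr F F ℓ := fun _ _ => rfl
  have he2 : CE (embR hrfl : RO (Cnd F ℓ) → RO (Cnd F (⊤ : II))) := embR_ce hrfl le_top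
  refine ⟨fun n => embR hrfl (zG i n), ?_, fun j => ?_⟩
  · rw [← he2.map_finV, mstep_inf he1 hms hJp hJs hJf, he2.map_bot]
  · have h1 : (valN (Y j) : ℕ → RO (Cnd G i)) ∈ J := by
      rw [hJ]
      exact h28_JS_val ⟨hα' ▸ ⟨j, rfl⟩, hYG j⟩
    have h2 : ((fun n => embR hrfl (zG i n)) ⊓ y j : ℕ → RO (Cnd F (⊤ : II))) =
        fun n => embR hrfl ((zG i ⊓ fun n => embR hag (valN (Y j) n) : ℕ → RO (Cnd F ℓ)) n) := by
      funext n
      rw [Pi.inf_apply, Pi.inf_apply, he2.map_inf, embR_embR hag hrfl hag hiℓ.le le_top, hval]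
    rw [h2, ← he2.map_finV, mstep_fin he1 hms hJp hJs hJf _ h1, he2.map_top]

end C5

end Pool.Agent.Helper32.FR
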